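import Pool.Agent.N19.BR.Tw
import Pool.Agent.N19.BR.AMain

/-!
# The Beilinson-Bloch formula for the tensor product of an eigenform with an Artin representation: reduction to
special base fields

`K` is a number field (`ℚ` for the triple products), `L` a finite Galois extension of `K`, `S₀` a finite set of primes
of `K` and `m ≥ 1`.  There is a relation `∑ e_j [F_j] = [K]`, with coefficient `1` on the right, between the
permutation characters of finite extensions `F_j` of `K` such that the groups `Gal(L F_j / F_j)` are
hyperelementary, each for a prime number `p`, the divisors of `m` prime to `p` divide the local degrees of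
`F_j / K` at the primes above `S₀`, and `F_j` has at most two real places if `p ≠ 2` (`Pool.Agent.N19.BR.Rel`, ...,
`Main`, `AMain`).

Let `M` be any finite Galois extension of `K` that contains the `F_j` (and `L`), and `τ` a representation of
`Gal(M / K)` (for example `V_gh`, with the field `H` of the problem as `L`; its restriction to `Gal(M / F_j)` comes
from the hyperelementary group `Gal(H F_j / F_j)`).  We prove:
* the L-function over `K` of the tensor product with `τ` is, up to finitely many factors without zeros and poles at the
  central point, the product of the `e_j`-th powers of the L-functions over the fields `F_j` (`StFrob`, `Tw`);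
* `dim Hom_G(V_τ, W) = ∑ e_j dim Hom_{H_j}(V_τ, W)` for every representation `W` of `Gal(M / K)`, of finite or
  infinite dimension, with finite-dimensional spaces on the right (`InvRel`, `Tw`).

The definitions are in `Pool.Agent.N19.BR.TwDefs`, `StDefs`, `ADefs`, `TDefs` and `Defs`.
-/

set_option autoImplicit false

namespace Pool.Agent.Results.MP_60ff09_nt.SpecialBaseFields

open NumberField IsDedekindDomain
open Pool.Agent.N19.BR.TDef (FieldList)
open Pool.Agent.N19.BR.MDef (HyperelementaryList Pure Region)
open Pool.Agent.N19.BR.TwDef

/-- **The order formula for twists over special base fields.**  For every finite Galois extension `L / K` of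
number fields, every finite set `S₀` of primes of `K` and `m ≥ 1` there is a finite list of number fields
`F_j ⊇ K` with integers `e_j`, such that for every `j` there is a prime number `p` for which the Galois group of
`L F_j / F_j` is `p`-hyperelementary, the divisors of `m` prime to `p` divide the local degrees of `F_j / K` at the
primes above `S₀`, and `F_j` has at most two real places if `p ≠ 2`, and such that the following holds for ALL finite
Galois extensions `M` of `K` with embeddings of the `F_j`, all complex representations `τ` of `Gal(M / K)` (`ρ`), all
systems `α` of Frobenius eigenvalues pure of weight `i`, all representations `W` of `Gal(M / K)`, all `U` and all points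
`s₀` of `U`: if for all `j` the L-function of the twist by `τ` over `F_j` has a meromorphic continuation to `U` with
order `dim Hom_{H_j}(V_τ, W) + δ_j` at `s₀`, then the L-function over `K` has a meromorphic continuation to `U`, and
all of them have order `dim Hom_G(V_τ, W) + ∑ e_j δ_j` at `s₀`; so the order formula over all the fields `F_j` implies
it over `K`. -/
theorem result (K : Type) [Field K] [NumberField K] (L : Type) [Field L] [NumberField L]
    [Algebra K L] [IsGalois K L] (S₀ : Set (HeightOneSpectrum (𝓞 K))) (hS₀ : S₀.Finite) (m : ℕ)
    (hm : m ≠ 0) :
    ∃ Y : FieldList K, HyperelementaryList L S₀ m Y ∧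
      ∀ (M : Type) [Field M] [NumberField M] [Algebra K M] [IsGalois K M]
        (f : ∀ j, Y.F j →ₐ[K] M) (n : ℕ) (ρ : Gal(M/K) →* Matrix (Fin n) (Fin n) ℂ)
        (i : ℤ) (N : ℕ) (α : HeightOneSpectrum (𝓞 K) → Fin N → ℂ), Pure i α →
      ∀ (W : Type) [AddCommGroup W] [Module ℂ W] (π : Representation ℂ Gal(M/K) W)
        (U : Set ℂ), Region i U → ∀ s₀ ∈ U, ∀ δ : Fin Y.r → ℤ,
        (∀ j, OrderFormula α ρ (f j) π U s₀ (δ j)) →
          OrderFormulaBase α ρ π U s₀ (∑ j, Y.e j * δ j) := by
  obtain ⟨Y, hY, hrel⟩ := Pool.Agent.N19.BR.hyper_list K L S₀ hS₀ m hm
  exact ⟨Y, hY, fun M _ _ _ _ f n ρ i N α hα W _ _ π U hU s₀ hs₀ δ h =>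
    Pool.Agent.N19.BR.order_rel_tw ρ π hα
      (Z := fun j => (⟨Y.F j⟩ : Pool.Agent.R433.MD.Ext K)) (e := Y.e) hrel f hU hs₀ h⟩

end Pool.Agent.Results.MP_60ff09_nt.SpecialBaseFields
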